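import Pool.Agent.Q204.WD.Defs

set_option autoImplicit false

/-!
# Meet, totalization and totalizing jump of Weihrauch degrees
-/

namespace Q204.TJ

open Q204.WD

/-- The sequence `a, y 0, y 1, ...`. -/
def cons (a : ℕ) (y : ℕ → ℕ) : ℕ → ℕ
  | 0 => a
  | n + 1 => y n

/-- The first component of a pair (`fstP (join x z) = x`). -/
def fstP (p : ℕ → ℕ) (i : ℕ) : ℕ := p (2 * i)

/-- The second component of a pair (`sndP (join x z) = z`). -/
def sndP (p : ℕ → ℕ) (i : ℕ) : ℕ := p (2 * i + 1)

/-- The meet `f ⊓ g`: for `x ∈ dom f`, `z ∈ dom g` the solutions of `⟨x, z⟩` are the sequences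
`0, y` with `y ∈ f x` and `1, y` with `y ∈ g z`. -/
def meet (f g : Problem) : Problem :=
  fun p => {r | fstP p ∈ dom f ∧ sndP p ∈ dom g ∧
    ((∃ y ∈ f (fstP p), r = cons 0 y) ∨ (∃ y ∈ g (sndP p), r = cons 1 y))}

open Classical in
/-- The totalization: everything is a solution outside of the domain. -/
noncomputable def T (g : Problem) : Problem := fun p => if p ∈ dom g then g p else Set.univ

/-- `F` has the degree `tJ(f)`: the largest of the degrees of the `T g`, `g ≡ f`. -/
def IsTJ (f F : Problem) : Prop :=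
  (∃ g, WEquiv g f ∧ WEquiv F (T g)) ∧ ∀ g, WEquiv g f → WRed (T g) F

end Q204.TJ
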