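import Pool.Agent.Q204.WD.Comp
import Pool.Agent.Q204.TJ.Defs

set_option autoImplicit false

/-!
# Tools: monotonization, self-referential sequences, first elements
-/

namespace Q204.TJ

open Q204.WD

/-- All members are initial segments of `u`, of unbounded length. -/
def Cof (a : ℕ → List ℕ) (u : ℕ → ℕ) : Prop :=
  (∀ n, a n = pre u (a n).length) ∧ ∀ m, ∃ n, m ≤ (a n).length

theorem conv_cof {a : ℕ → List ℕ} {u : ℕ → ℕ} (h : Conv a u) : Cof a u :=
  ⟨h.1, fun m => by
    obtain ⟨N, hN⟩ := h.2 m
    exact ⟨N, hN N le_rfl⟩⟩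

theorem Cof.unique {a : ℕ → List ℕ} {u v : ℕ → ℕ} (hu : Cof a u) (hv : Cof a v) : u = v := by
  funext i
  obtain ⟨N, hN⟩ := hu.2 (i + 1)
  have h1 := hu.1 N
  have h2 := hv.1 N
  have h3 : pre u (a N).length = pre v (a N).length := by rw [← h1, ← h2]
  exact pre_eq_iff.1 h3 i hN

/-- Every list is an initial segment of its extension by `0`. -/
theorem eq_pre_getD (l : List ℕ) : l = pre (fun i => l.getD i 0) l.length := by
  apply List.ext_getElem
  · simp
  · intro i h1 h2
    rw [pre_getElem, List.getD_eq_getElem _ _ h1]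

theorem pre_take (p : ℕ → ℕ) {m n : ℕ} (h : m ≤ n) : (pre p n).take m = pre p m := by
  have h1 := pre_prefix (p := p) h
  rw [List.prefix_iff_eq_take] at h1
  rw [pre_length] at h1
  exact h1.symm

/-! ### Monotonization -/

/-- One step of the monotonization. -/
def mstep (w x : List ℕ) : List ℕ := if x.take w.length = w then x else w

/-- Monotonization of a map on finite sequences. -/
def mz (φ : List ℕ → List ℕ) (l : List ℕ) : List ℕ :=
  Nat.rec [] (fun n w => mstep w (φ (l.take n))) (l.length + 1)

/-- Monotonization along an infinite sequence. -/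
def mzI (φ : List ℕ → List ℕ) (p : ℕ → ℕ) : ℕ → List ℕ
  | 0 => []
  | n + 1 => mstep (mzI φ p n) (φ (pre p n))

theorem mz_pre (φ : List ℕ → List ℕ) (p : ℕ → ℕ) (n : ℕ) : mz φ (pre p n) = mzI φ p (n + 1) := by
  unfold mz
  rw [pre_length]
  have key : ∀ k ≤ n + 1, (Nat.rec [] (fun i w => mstep w (φ ((pre p n).take i))) k : List ℕ) =
      mzI φ p k := by
    intro k
    induction k with
    | zero => intro _; rfl
    | succ k ih =>
      intro hk
      show mstep (Nat.rec [] (fun i w => mstep w (φ ((pre p n).take i))) k) (φ ((pre p n).take k)) =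
        mstep (mzI φ p k) (φ (pre p k))
      rw [ih (by omega), pre_take p (by omega)]
  exact key _ le_rfl

theorem mstep_prefix (w x : List ℕ) : w <+: mstep w x := by
  unfold mstep
  split_ifs with h
  · rw [List.prefix_iff_eq_take]
    exact h.symm
  · exact List.prefix_refl _

theorem mzI_mono (φ : List ℕ → List ℕ) (p : ℕ → ℕ) {m n : ℕ} (h : m ≤ n) :
    mzI φ p m <+: mzI φ p n := by
  induction h with
  | refl => exact List.prefix_refl _
  | step _ ih => exact ih.trans (mstep_prefix _ _)

theorem mz_mono (φ : List ℕ → List ℕ) : Mono (mz φ) := by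
  intro l l' h
  have h1 := h.length_le
  have h2 : l = pre (fun i => l'.getD i 0) l.length := by
    conv_lhs => rw [eq_pre_getD l]
    apply pre_congr
    intro i hi
    exact (prefix_iff_getD.1 h).2 i hi
  have h3 : mz φ l' = mzI φ (fun i => l'.getD i 0) (l'.length + 1) := by
    conv_lhs => rw [eq_pre_getD l']
    exact mz_pre _ _ _
  rw [h3, h2, mz_pre]
  exact mzI_mono _ _ (by omega)

theorem mz_computable {φ : List ℕ → List ℕ} (h : Computable φ) : Computable (mz φ) := by
  unfold mz
  refine Computable.nat_rec (f := fun l : List ℕ => l.length + 1)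
    (g := fun _ : List ℕ => ([] : List ℕ)) (h := fun (l : List ℕ) (y : ℕ × List ℕ) =>
    mstep y.2 (φ (l.take y.1))) ?_ ?_ ?_
  · exact Computable.succ.comp Computable.list_length
  · exact Computable.const _
  · have h1 : Computable (fun x : List ℕ × ℕ × List ℕ => φ (x.1.take x.2.1)) :=
      h.comp ((Primrec.list_take.comp (Primrec.fst.comp Primrec.snd) Primrec.fst).to_comp)
    have h2 : Computable (fun x : List ℕ × ℕ × List ℕ => x.2.2) :=
      Computable.snd.comp Computable.snd
    have h3 : Computable (fun x : List ℕ × ℕ × List ℕ =>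
        decide ((φ (x.1.take x.2.1)).take x.2.2.length = x.2.2)) :=
      Primrec.eq.decide.to_comp.comp ((Primrec.list_take.to_comp.comp
        (Computable.list_length.comp h2) h1)) h2
    have h4 := Computable.cond h3 h1 h2
    refine Computable.of_eq (f := fun x : List ℕ × ℕ × List ℕ =>
      cond (decide ((φ (x.1.take x.2.1)).take x.2.2.length = x.2.2)) (φ (x.1.take x.2.1)) x.2.2)
      h4 ?_
    intro x
    obtain ⟨a, b, c⟩ := x
    simp only [mstep]
    by_cases h5 : (φ (a.take b)).take c.length = c
    · simp [h5]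
    · simp [h5]

theorem mstep_pre {w x : List ℕ} {r : ℕ → ℕ} (hw : w = pre r w.length) (hx : x = pre r x.length) :
    mstep w x = pre r (max w.length x.length) := by
  unfold mstep
  split_ifs with h
  · have h1 : w.length ≤ x.length := by
      have := congrArg List.length h
      rw [List.length_take] at this
      omega
    rw [max_eq_right h1]
    exact hx
  · have h1 : ¬ w.length ≤ x.length := by
      intro h1
      apply h
      rw [hx, hw]
      simp only [pre_length]
      exact pre_take r h1
    rw [max_eq_left (by omega)]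
    exact hw

theorem mz_eval {φ : List ℕ → List ℕ} {p r : ℕ → ℕ} (h : Cof (fun n => φ (pre p n)) r) :
    Eval (mz φ) p r := by
  have h1 : ∀ n, mzI φ p n = pre r (mzI φ p n).length := by
    intro n
    induction n with
    | zero => rfl
    | succ n ih =>
      show mstep (mzI φ p n) (φ (pre p n)) = pre r (mstep (mzI φ p n) (φ (pre p n))).length
      rw [mstep_pre ih (h.1 n), pre_length]
  intro m
  obtain ⟨n, hn⟩ := h.2 m
  refine ⟨n, ?_⟩
  rw [mz_pre]
  show pre r m <+: mstep (mzI φ p n) (φ (pre p n))
  rw [mstep_pre (h1 n) (h.1 n)]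
  exact pre_prefix (le_trans hn (le_max_right _ _))

/-! ### Self-referential sequences -/

/-- The list built by `Θ` from a finite parameter. -/
def bld (Θ : List ℕ → List ℕ → ℕ) (l : List ℕ) : List ℕ :=
  Nat.rec [] (fun i R => R ++ [Θ (l.take i) R]) l.length

/-- The list of length `n` built by `Θ` from an infinite parameter. -/
def bldI (Θ : List ℕ → List ℕ → ℕ) (v : ℕ → ℕ) : ℕ → List ℕ
  | 0 => []
  | n + 1 => bldI Θ v n ++ [Θ (pre v n) (bldI Θ v n)]

/-- The sequence built by `Θ` from an infinite parameter. -/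
def seqI (Θ : List ℕ → List ℕ → ℕ) (v : ℕ → ℕ) (n : ℕ) : ℕ := Θ (pre v n) (bldI Θ v n)

theorem bldI_eq (Θ : List ℕ → List ℕ → ℕ) (v : ℕ → ℕ) (n : ℕ) :
    bldI Θ v n = pre (seqI Θ v) n := by
  induction n with
  | zero => rfl
  | succ n ih =>
    rw [pre_succ, ← ih]
    rfl

theorem seqI_eq (Θ : List ℕ → List ℕ → ℕ) (v : ℕ → ℕ) (n : ℕ) :
    seqI Θ v n = Θ (pre v n) (pre (seqI Θ v) n) := by
  rw [← bldI_eq]
  rfl

theorem bld_pre (Θ : List ℕ → List ℕ → ℕ) (v : ℕ → ℕ) (n : ℕ) :
    bld Θ (pre v n) = pre (seqI Θ v) n := by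
  unfold bld
  rw [pre_length, ← bldI_eq]
  have key : ∀ k ≤ n, (Nat.rec [] (fun i R => R ++ [Θ ((pre v n).take i) R]) k : List ℕ) =
      bldI Θ v k := by
    intro k
    induction k with
    | zero => intro _; rfl
    | succ k ih =>
      intro hk
      show (Nat.rec [] (fun i R => R ++ [Θ ((pre v n).take i) R]) k : List ℕ) ++
        [Θ ((pre v n).take k) (Nat.rec [] (fun i R => R ++ [Θ ((pre v n).take i) R]) k)] =
        bldI Θ v k ++ [Θ (pre v k) (bldI Θ v k)]
      rw [ih (by omega), pre_take v (by omega)]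
  exact key _ le_rfl

theorem bld_mono (Θ : List ℕ → List ℕ → ℕ) : Mono (bld Θ) := by
  intro l l' h
  have h1 := h.length_le
  have h2 : l = pre (fun i => l'.getD i 0) l.length := by
    conv_lhs => rw [eq_pre_getD l]
    apply pre_congr
    intro i hi
    exact (prefix_iff_getD.1 h).2 i hi
  have h3 : bld Θ l' = pre (seqI Θ (fun i => l'.getD i 0)) l'.length := by
    conv_lhs => rw [eq_pre_getD l']
    exact bld_pre _ _ _
  rw [h3, h2, bld_pre]
  exact pre_prefix h1

theorem bld_computable {Θ : List ℕ → List ℕ → ℕ} (h : Computable₂ Θ) : Computable (bld Θ) := by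
  unfold bld
  refine Computable.nat_rec (f := fun l : List ℕ => l.length)
    (g := fun _ : List ℕ => ([] : List ℕ)) (h := fun (l : List ℕ) (y : ℕ × List ℕ) =>
    y.2 ++ [Θ (l.take y.1) y.2]) ?_ ?_ ?_
  · exact Computable.list_length
  · exact Computable.const _
  · have h1 : Computable (fun x : List ℕ × ℕ × List ℕ => x.1.take x.2.1) :=
      (Primrec.list_take.comp (Primrec.fst.comp Primrec.snd) Primrec.fst).to_comp
    have h2 : Computable (fun x : List ℕ × ℕ × List ℕ => x.2.2) :=
      Computable.snd.comp Computable.snd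
    exact Computable.list_concat.comp h2 (h.comp h1 h2)

theorem bld_conv (Θ : List ℕ → List ℕ → ℕ) (v : ℕ → ℕ) :
    Conv (fun n => bld Θ (pre v n)) (seqI Θ v) := by
  have : (fun n => bld Θ (pre v n)) = pre (seqI Θ v) := by
    funext n
    exact bld_pre _ _ _
  rw [this]
  exact conv_pre _

/-! ### First elements, components -/

theorem join_fst_snd (p : ℕ → ℕ) : join (fstP p) (sndP p) = p := by
  funext n
  unfold join fstP sndP
  split_ifs with h
  · congr 1; omega
  · congr 1; omega

@[simp] theorem fst_join (x z : ℕ → ℕ) : fstP (join x z) = x := by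
  funext n
  exact join_even x z n

@[simp] theorem snd_join (x z : ℕ → ℕ) : sndP (join x z) = z := by
  funext n
  exact join_odd x z n

theorem pre_cons (a : ℕ) (y : ℕ → ℕ) (n : ℕ) : pre (cons a y) (n + 1) = a :: pre y n := by
  unfold pre
  rw [List.range_succ_eq_map, List.map_cons, List.map_map]
  rfl

theorem cons_tail (y : ℕ → ℕ) : cons (y 0) (fun n => y (n + 1)) = y := by
  funext n
  cases n <;> rfl

theorem Conv.cons {a : ℕ → List ℕ} {y : ℕ → ℕ} (h : Conv a y) (b : ℕ) :
    Conv (fun n => b :: a n) (Q204.TJ.cons b y) := by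
  constructor
  · intro n
    show b :: a n = pre (Q204.TJ.cons b y) (b :: a n).length
    rw [List.length_cons, pre_cons, ← h.1 n]
  · intro m
    obtain ⟨N, hN⟩ := h.2 m
    refine ⟨N, fun n hn => ?_⟩
    show m ≤ (b :: a n).length
    rw [List.length_cons]
    have := hN n hn
    omega

theorem Conv.tail {a : ℕ → List ℕ} {y : ℕ → ℕ} (h : Conv a y) :
    Conv (fun n => (a n).tail) (fun n => y (n + 1)) := by
  have key : ∀ n, (a n).tail = pre (fun n => y (n + 1)) ((a n).length - 1) := by
    intro n
    rcases hl : (a n).length with _ | k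
    · rw [List.length_eq_zero_iff] at hl
      rw [hl]
      rfl
    · have h1 := h.1 n
      rw [hl, ← cons_tail y, pre_cons] at h1
      rw [h1]
      rfl
  constructor
  · intro n
    show (a n).tail = pre _ (a n).tail.length
    rw [List.length_tail]
    exact key n
  · intro m
    obtain ⟨N, hN⟩ := h.2 (m + 1)
    refine ⟨N, fun n hn => ?_⟩
    show m ≤ (a n).tail.length
    rw [List.length_tail]
    have := hN n hn
    omega

theorem mono_cons (b : ℕ) : Mono (fun l => b :: l) := by
  intro l l' h
  exact (List.prefix_cons_inj b).2 h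

theorem Conv.congr {a b : ℕ → List ℕ} {y : ℕ → ℕ} (h : Conv a y) (hab : ∀ n, b n = a n) :
    Conv b y := by
  have : b = a := funext hab
  rw [this]
  exact h

/-- The head of a nonempty initial segment. -/
theorem pre_head {y : ℕ → ℕ} {l : List ℕ} (h : l = pre y l.length) (h0 : l ≠ []) :
    l.headI = y 0 := by
  rcases hl : l.length with _ | k
  · exact absurd (List.length_eq_zero_iff.1 hl) h0
  · rw [h, hl, ← cons_tail y, pre_cons]
    rfl

end Q204.TJ
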