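import Pool.Agent.Q204.TJ.Meet

set_option autoImplicit false

/-!
# The self-referential instance
-/

namespace Q204.TJ

open Q204.WD Encodable

section
variable (c d h k : List ℕ → List ℕ) (t b : ℕ)

/-- The output of the reduction for the solution beginning with `w`. -/
def sol (l w : List ℕ) : List ℕ := k (joinL l (d (joinL (h l) w)))

/-- The table entry. -/
def ent (l s : List ℕ) : List ℕ :=
  if s.length < 2 then [] else (if s.headI = 0 then s.tail.headI + 1 else 0) :: l

/-- The next element of the instance. -/
def nxt (vp R : List ℕ) : ℕ :=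
  if vp.length < t then 0
  else if vp.length % 4 = 0 then encode (c (h R))
  else if vp.length % 4 = 2 then Nat.pair (vp.length / 4).unpair.1
    (encode (ent (dl (vp.length / 4).unpair.1) (sol d h k R (dl (vp.length / 4).unpair.1))))
  else if vp.length % 4 = 1 then encode vp
  else Nat.pair (vp.length / 4).unpair.1 (encode ((b + 1) :: dl (vp.length / 4).unpair.1))

end

theorem sol_mono {d h k : List ℕ → List ℕ} (hd : Mono d) (hh : Mono h) (hk : Mono k)
    {l l' w w' : List ℕ} (hl : l <+: l') (hw : w <+: w') : sol d h k l w <+: sol d h k l' w' :=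
  hk _ _ (joinL_prefix hl (hd _ _ (joinL_prefix (hh _ _ hl) hw)))

theorem sol_computable {d h k : List ℕ → List ℕ} (hd : Computable d) (hh : Computable h)
    (hk : Computable k) : Computable₂ (sol d h k) :=
  hk.comp (computable_joinL Computable.fst (hd.comp (computable_joinL (hh.comp Computable.fst)
    Computable.snd)))

theorem primrec_ent : Primrec₂ ent := by
  unfold ent
  apply Primrec.ite
  · exact Primrec.nat_lt.comp (Primrec.list_length.comp Primrec.snd) (Primrec.const 2)
  · exact Primrec.const []
  · apply Primrec.list_cons.comp _ Primrec.fst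
    apply Primrec.ite
    · exact Primrec.eq.comp (Primrec.list_headI.comp Primrec.snd) (Primrec.const 0)
    · exact Primrec.succ.comp (Primrec.list_headI.comp (Primrec.list_tail.comp Primrec.snd))
    · exact Primrec.const 0

theorem nxt_computable {c d h k : List ℕ → List ℕ} (hc : Computable c) (hd : Computable d)
    (hh : Computable h) (hk : Computable k) (t b : ℕ) : Computable₂ (nxt c d h k t b) := by
  have hlen : Primrec (fun x : List ℕ × List ℕ => x.1.length) :=
    Primrec.list_length.comp Primrec.fst
  have hu : Primrec (fun x : List ℕ × List ℕ => (x.1.length / 4).unpair.1) :=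
    Primrec.fst.comp (Primrec.unpair.comp (Primrec.nat_div.comp hlen (Primrec.const 4)))
  have h0 : Computable (fun x : List ℕ × List ℕ => decide (x.1.length < t)) :=
    (Primrec.nat_lt.decide.comp hlen (Primrec.const t)).to_comp
  have hm : ∀ j, Computable (fun x : List ℕ × List ℕ => decide (x.1.length % 4 = j)) := fun j =>
    (Primrec.eq.decide.comp (Primrec.nat_mod.comp hlen (Primrec.const 4))
      (Primrec.const j)).to_comp
  have h1 : Computable (fun x : List ℕ × List ℕ => encode (c (h x.2))) :=
    Computable.encode.comp (hc.comp (hh.comp Computable.snd))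
  have h2 : Computable (fun x : List ℕ × List ℕ => Nat.pair (x.1.length / 4).unpair.1
    (encode (ent (dl (x.1.length / 4).unpair.1) (sol d h k x.2 (dl (x.1.length / 4).unpair.1))))) :=
    Primrec₂.natPair.to_comp.comp hu.to_comp (Computable.encode.comp
      (primrec_ent.to_comp.comp (primrec_dl.comp hu).to_comp
        ((sol_computable hd hh hk).comp Computable.snd (primrec_dl.comp hu).to_comp)))
  have h3 : Computable (fun x : List ℕ × List ℕ => encode x.1) :=
    Computable.encode.comp Computable.fst
  have h4 : Computable (fun x : List ℕ × List ℕ => Nat.pair (x.1.length / 4).unpair.1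
      (encode ((b + 1) :: dl (x.1.length / 4).unpair.1))) :=
    (Primrec₂.natPair.comp hu (Primrec.encode.comp (Primrec.list_cons.comp
      (Primrec.const (b + 1)) (primrec_dl.comp hu)))).to_comp
  have h5 := Computable.cond h0 (Computable.const 0) (Computable.cond (hm 0) h1
    (Computable.cond (hm 2) h2 (Computable.cond (hm 1) h3 h4)))
  refine Computable.of_eq h5 ?_
  rintro ⟨x, y⟩
  show _ = nxt c d h k t b x y
  unfold nxt
  by_cases e0 : x.length < t
  · simp [e0]
  · by_cases e1 : x.length % 4 = 0
    · simp [e0, e1]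
    · by_cases e2 : x.length % 4 = 2
      · simp [e0, e2]
      · by_cases e3 : x.length % 4 = 1
        · simp [e0, e3]
        · simp [e0, e1, e2, e3]

/-- The rank of a solution. -/
def rk (s : ℕ → ℕ) : ℕ := if s 0 = 0 then s 1 + 1 else 0

section
variable {c d h k : List ℕ → List ℕ} {t b : ℕ} (v : ℕ → ℕ)

theorem X_small {i : ℕ} (hi : i < t) : seqI (nxt c d h k t b) v i = 0 := by
  rw [seqI_eq]
  unfold nxt
  rw [pre_length, if_pos hi]

theorem X_ff (n : ℕ) (hn : ¬ 4 * n < t) : fstP (fstP (seqI (nxt c d h k t b) v)) n =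
    encode (c (h (pre (seqI (nxt c d h k t b) v) (4 * n)))) := by
  unfold fstP
  have h1 : 2 * (2 * n) = 4 * n := by ring
  rw [h1, seqI_eq]
  unfold nxt
  rw [pre_length, if_neg hn, if_pos (by omega)]

theorem X_fs (n : ℕ) (hn : ¬ 4 * n + 2 < t) : sndP (fstP (seqI (nxt c d h k t b) v)) n =
    Nat.pair n.unpair.1 (encode (ent (dl n.unpair.1)
      (sol d h k (pre (seqI (nxt c d h k t b) v) (4 * n + 2)) (dl n.unpair.1)))) := by
  unfold sndP fstP
  have h1 : 2 * (2 * n + 1) = 4 * n + 2 := by ring
  have h2 : (4 * n + 2) / 4 = n := by omega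
  rw [h1, seqI_eq]
  unfold nxt
  rw [pre_length, if_neg hn, if_neg (by omega), if_pos (by omega), h2]

theorem X_sf (n : ℕ) (hn : ¬ 4 * n + 1 < t) : fstP (sndP (seqI (nxt c d h k t b) v)) n =
    encode (pre v (4 * n + 1)) := by
  show seqI (nxt c d h k t b) v (2 * (2 * n) + 1) = _
  have h1 : 2 * (2 * n) + 1 = 4 * n + 1 := by ring
  rw [h1, seqI_eq]
  unfold nxt
  rw [pre_length, if_neg hn, if_neg (by omega), if_neg (by omega), if_pos (by omega)]

theorem X_ss (n : ℕ) (hn : ¬ 4 * n + 3 < t) : sndP (sndP (seqI (nxt c d h k t b) v)) n =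
    Nat.pair n.unpair.1 (encode ((b + 1) :: dl n.unpair.1)) := by
  unfold sndP
  have h1 : 2 * (2 * n + 1) + 1 = 4 * n + 3 := by ring
  have h2 : (4 * n + 3) / 4 = n := by omega
  rw [h1, seqI_eq]
  unfold nxt
  rw [pre_length, if_neg hn, if_neg (by omega), if_neg (by omega), if_neg (by omega), h2]

theorem X_ff0 (n : ℕ) (hn : 4 * n < t) : fstP (fstP (seqI (nxt c d h k t b) v)) n = 0 :=
  X_small v (i := 2 * (2 * n)) (by omega)

theorem X_fs0 (n : ℕ) (hn : 4 * n + 2 < t) : sndP (fstP (seqI (nxt c d h k t b) v)) n = 0 :=
  X_small v (i := 2 * (2 * n + 1)) (by omega)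

theorem X_sf0 (n : ℕ) (hn : 4 * n + 1 < t) : fstP (sndP (seqI (nxt c d h k t b) v)) n = 0 :=
  X_small v (i := 2 * (2 * n) + 1) (by omega)

theorem X_ss0 (n : ℕ) (hn : 4 * n + 3 < t) : sndP (sndP (seqI (nxt c d h k t b) v)) n = 0 :=
  X_small v (i := 2 * (2 * n + 1) + 1) (by omega)

theorem appI_zero (q : ℕ → ℕ) : appI 0 q = [] := by
  unfold appI
  simp

/-- `z` names `v`. -/
theorem z_names : Cof (fun n => dl (fstP (sndP (seqI (nxt c d h k t b) v)) n)) v := by
  constructor
  · intro n
    show dl (fstP (sndP (seqI (nxt c d h k t b) v)) n) =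
      pre v (dl (fstP (sndP (seqI (nxt c d h k t b) v)) n)).length
    by_cases hn : 4 * n + 1 < t
    · rw [X_sf0 v n hn, dl_zero]
      rfl
    · rw [X_sf v n hn, dl_encode, pre_length]
  · intro m
    refine ⟨m + t, ?_⟩
    show m ≤ (dl (fstP (sndP (seqI (nxt c d h k t b) v)) (m + t))).length
    rw [X_sf v _ (by omega), dl_encode, pre_length]
    omega

theorem z_tab (q : ℕ → ℕ) : Tab (sndP (sndP (seqI (nxt c d h k t b) v))) q (cons (b + 1) q) := by
  constructor
  · intro n
    show appI (sndP (sndP (seqI (nxt c d h k t b) v)) n) q =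
      pre (cons (b + 1) q) (appI (sndP (sndP (seqI (nxt c d h k t b) v)) n) q).length
    by_cases hn : 4 * n + 3 < t
    · rw [X_ss0 v n hn, appI_zero]
      rfl
    · rw [X_ss v n hn]
      unfold appI
      simp only [Nat.unpair_pair, dl_encode]
      split_ifs with h1
      · rw [List.length_cons, pre_cons, h1]
      · rfl
  · intro m
    obtain ⟨n, hn, hn'⟩ := sched (encode (pre q m)) t
    refine ⟨n, ?_⟩
    show m ≤ (appI (sndP (sndP (seqI (nxt c d h k t b) v)) n) q).length
    rw [X_ss v n (by omega)]
    unfold appI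
    simp only [Nat.unpair_pair, dl_encode, hn, pre_length]
    rw [if_pos trivial, List.length_cons, pre_length]
    omega

theorem x_names (hc : Mono c) (hh : Mono h) {P u : ℕ → ℕ}
    (hP : Eval h (seqI (nxt c d h k t b) v) P) (hu : Eval c P u) :
    Cof (fun n => dl (fstP (fstP (seqI (nxt c d h k t b) v)) n)) u := by
  have h1 := (hP.conv hh).comp hc hu
  constructor
  · intro n
    show dl (fstP (fstP (seqI (nxt c d h k t b) v)) n) =
      pre u (dl (fstP (fstP (seqI (nxt c d h k t b) v)) n)).length
    by_cases hn : 4 * n < t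
    · rw [X_ff0 v n hn, dl_zero]
      rfl
    · rw [X_ff v n hn, dl_encode]
      exact h1.1 _
  · intro m
    obtain ⟨N, hN⟩ := h1.2 m
    refine ⟨N + t, ?_⟩
    show m ≤ (dl (fstP (fstP (seqI (nxt c d h k t b) v)) (N + t))).length
    rw [X_ff v _ (by omega), dl_encode]
    exact hN _ (by omega)

/-- The output of the reduction for the solution `q`. -/
def Sol (d h k : List ℕ → List ℕ) (X q s : ℕ → ℕ) : Prop :=
  ∀ A a : ℕ → List ℕ, Conv A X → Conv a q → Conv (fun n => sol d h k (A n) (a n)) s

theorem pre_two {s : ℕ → ℕ} {l : List ℕ} (hl : l = pre s l.length) (h2 : ¬ l.length < 2) :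
    l.headI = s 0 ∧ l.tail.headI = s 1 := by
  obtain ⟨j, hj⟩ : ∃ j, l.length = j + 2 := ⟨l.length - 2, by omega⟩
  have h3 : l = s 0 :: s 1 :: pre (fun n => s (n + 2)) j := by
    rw [hl, hj]
    conv_lhs => rw [← cons_tail s, pre_cons]
    congr 1
    have := pre_cons (s 1) (fun n => s (n + 2)) j
    rw [← this]
    congr 1
    funext n
    cases n <;> rfl
  rw [h3]
  exact ⟨rfl, rfl⟩

theorem x_tab (hd : Mono d) (hh : Mono h) (hk : Mono k) {q s : ℕ → ℕ}
    (hs : Sol d h k (seqI (nxt c d h k t b) v) q s) :
    Tab (sndP (fstP (seqI (nxt c d h k t b) v))) q (cons (rk s) q) := by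
  have h1 := hs _ _ (conv_pre (seqI (nxt c d h k t b) v)) (conv_pre q)
  constructor
  · intro n
    show appI (sndP (fstP (seqI (nxt c d h k t b) v)) n) q =
      pre (cons (rk s) q) (appI (sndP (fstP (seqI (nxt c d h k t b) v)) n) q).length
    by_cases hn : 4 * n + 2 < t
    · rw [X_fs0 v n hn, appI_zero]
      rfl
    · rw [X_fs v n hn]
      unfold appI
      simp only [Nat.unpair_pair, dl_encode]
      split_ifs with h2
      · set l := dl n.unpair.1 with hl
        set w := sol d h k (pre (seqI (nxt c d h k t b) v) (4 * n + 2)) l with hw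
        have h3 : w <+: pre s (sol d h k (pre (seqI (nxt c d h k t b) v) (max (4 * n + 2) l.length))
            (pre q (max (4 * n + 2) l.length))).length := by
          have h4 := h1.1 (max (4 * n + 2) l.length)
          rw [← h4, hw]
          apply sol_mono hd hh hk (pre_prefix (le_max_left _ _))
          conv_lhs => rw [← h2]
          exact pre_prefix (le_max_right _ _)
        have h5 := prefix_eq_pre h3
        unfold ent
        split_ifs with h6 h7
        · rfl
        · obtain ⟨h8, h9⟩ := pre_two h5 h6
          rw [List.length_cons, pre_cons, h2, h9]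
          unfold rk
          rw [if_pos (by rw [← h8]; exact h7)]
        · obtain ⟨h8, h9⟩ := pre_two h5 h6
          rw [List.length_cons, pre_cons, h2]
          unfold rk
          rw [if_neg (by rw [← h8]; exact h7)]
      · rfl
  · intro m
    obtain ⟨N, hN⟩ := h1.2 2
    obtain ⟨n, hn, hn'⟩ := sched (encode (pre q (max N m))) (t + max N m)
    refine ⟨n, ?_⟩
    show m ≤ (appI (sndP (fstP (seqI (nxt c d h k t b) v)) n) q).length
    rw [X_fs v n (by omega)]
    unfold appI
    simp only [Nat.unpair_pair, dl_encode, hn, pre_length]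
    rw [if_pos trivial]
    unfold ent
    have h2 : 2 ≤ (sol d h k (pre (seqI (nxt c d h k t b) v) (max N m))
      (pre q (max N m))).length := hN _ (le_max_left _ _)
    have h3 : sol d h k (pre (seqI (nxt c d h k t b) v) (max N m)) (pre q (max N m)) <+:
        sol d h k (pre (seqI (nxt c d h k t b) v) (4 * n + 2)) (pre q (max N m)) :=
      sol_mono hd hh hk (pre_prefix (by omega)) (List.prefix_refl _)
    have h4 := h3.length_le
    rw [if_neg (by omega), List.length_cons, pre_length]
    have : m ≤ max N m := le_max_right _ _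
    omega

end

/-! ### Iteration -/

/-- One step of the chain. -/
def step (d h k : List ℕ → List ℕ) (l s : List ℕ) : List ℕ :=
  if s.headI = 0 then sol d h k l s.tail.tail else s

/-- The output. -/
def out (s : List ℕ) : List ℕ := if s.headI = 0 then [] else s.tail.tail

theorem step_of_ne {d h k : List ℕ → List ℕ} {l s : List ℕ} (hs : s.headI ≠ 0) (i : ℕ) :
    (step d h k l)^[i] s = s := by
  have h1 : step d h k l s = s := by
    unfold step
    rw [if_neg hs]
  exact Function.iterate_fixed h1 i

theorem step_nil {d h k : List ℕ → List ℕ} {l : List ℕ} (hs : sol d h k l [] = []) (i : ℕ) :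
    (step d h k l)^[i] [] = [] := by
  have h1 : step d h k l [] = [] := by
    unfold step
    rw [if_pos (show ([] : List ℕ).headI = 0 from rfl)]
    exact hs
  exact Function.iterate_fixed h1 i

/-- The backward functional before monotonization. -/
def bwd (Θ : List ℕ → List ℕ → ℕ) (d h k : List ℕ → List ℕ) (l : List ℕ) : List ℕ :=
  out ((step d h k (bld Θ (evens l)))^[l.length] (sol d h k (bld Θ (evens l)) (odds l)))

theorem bwd_computable {Θ : List ℕ → List ℕ → ℕ} {d h k : List ℕ → List ℕ} (hΘ : Computable₂ Θ)
    (hd : Computable d) (hh : Computable h) (hk : Computable k) : Computable (bwd Θ d h k) := by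
  have hB : Computable (fun l => bld Θ (evens l)) := (bld_computable hΘ).comp primrec_evens.to_comp
  have ho : Computable out := by
    apply Primrec.to_comp
    unfold out
    apply Primrec.ite
    · exact Primrec.eq.comp (Primrec.list_headI.comp Primrec.id) (Primrec.const 0)
    · exact Primrec.const []
    · exact Primrec.list_tail.comp Primrec.list_tail
  have hst : Computable₂ (fun (l : List ℕ) (y : ℕ × List ℕ) =>
      step d h k (bld Θ (evens l)) y.2) := by
    have h2 : Computable (fun x : List ℕ × ℕ × List ℕ => x.2.2) :=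
      Computable.snd.comp Computable.snd
    have h3 : Computable (fun x : List ℕ × ℕ × List ℕ => decide (x.2.2.headI = 0)) :=
      (Primrec.eq.decide.comp (Primrec.list_headI.comp (Primrec.snd.comp Primrec.snd))
        (Primrec.const 0)).to_comp
    have h4 : Computable (fun x : List ℕ × ℕ × List ℕ => x.2.2.tail.tail) :=
      (Primrec.list_tail.comp (Primrec.list_tail.comp (Primrec.snd.comp Primrec.snd))).to_comp
    have h5 := Computable.cond h3 ((sol_computable hd hh hk).comp (hB.comp Computable.fst) h4) h2
    refine Computable.of_eq h5 ?_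
    rintro ⟨x, y, z⟩
    show cond (decide (z.headI = 0)) (sol d h k (bld Θ (evens x)) z.tail.tail) z =
      step d h k (bld Θ (evens x)) z
    unfold step
    by_cases e : z.headI = 0
    · simp [e]
    · simp [e]
  have h6 : Computable (fun l : List ℕ => (Nat.rec (sol d h k (bld Θ (evens l)) (odds l))
      (fun (_ : ℕ) s => step d h k (bld Θ (evens l)) s) l.length : List ℕ)) :=
    Computable.nat_rec (f := fun l : List ℕ => l.length)
      (g := fun l => sol d h k (bld Θ (evens l)) (odds l))
      (h := fun (l : List ℕ) (y : ℕ × List ℕ) => step d h k (bld Θ (evens l)) y.2)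
      Computable.list_length ((sol_computable hd hh hk).comp hB primrec_odds.to_comp) hst
  refine Computable.of_eq (ho.comp h6) ?_
  intro l
  show out _ = bwd Θ d h k l
  unfold bwd
  congr 1
  generalize l.length = n
  induction n with
  | zero => rfl
  | succ n ih =>
    rw [Function.iterate_succ_apply', ← ih]

end Q204.TJ
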