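import Pool.Agent.Q204.TJ.Core

set_option autoImplicit false

/-!
# The reduction of `g` to `f`
-/

namespace Q204.TJ

open Q204.WD Encodable

theorem eventually_conv {a b : ℕ → List ℕ} {y : ℕ → ℕ} (h : Conv a y)
    (hab : ∀ n, b n = a n ∨ b n = []) (hN : ∃ N, ∀ n, N ≤ n → b n = a n) : Conv b y :=
  Conv.eventually h hab hN

section
variable {f g : Problem} {c d h k : List ℕ → List ℕ} {t b : ℕ} {v : ℕ → ℕ}

theorem z_dom (hv : v ∈ dom g) : sndP (seqI (nxt c d h k t b) v) ∈ dom (U g) := by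
  obtain ⟨q, hq⟩ := hv
  exact ⟨cons (b + 1) q, v, ⟨q, hq⟩, z_names v, fun q' _ => ⟨_, z_tab v q'⟩, q, hq, z_tab v q⟩

theorem z_sol {y : ℕ → ℕ} (hy : y ∈ U g (sndP (seqI (nxt c d h k t b) v))) :
    ∃ q ∈ g v, y = cons (b + 1) q := by
  obtain ⟨u, -, hu, -, q, hq, ht⟩ := hy
  obtain rfl := Cof.unique hu (z_names v)
  exact ⟨q, hq, Cof.unique ht (z_tab u q)⟩

/-- The chain of solutions ends with a solution of `v`. -/
theorem chain {X u : ℕ → ℕ} (hd : Mono d) (hh : Mono h) (hk : Mono k)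
    (hsol : ∀ q ∈ f u, ∃ s, Sol d h k X q s ∧
      ((∃ q₁ ∈ f u, ∃ s₁, Sol d h k X q₁ s₁ ∧ s = cons 0 (cons (rk s₁) q₁)) ∨
        ∃ y ∈ g v, s = cons 1 (cons (b + 1) y))) :
    ∀ ρ, ∀ q ∈ f u, ∀ s, Sol d h k X q s → rk s = ρ → ∃ y ∈ g v, ∀ A a : ℕ → List ℕ, Conv A X →
      Conv a q → ∀ ι : ℕ → ℕ, (∀ m, ∃ N, ∀ n, N ≤ n → m ≤ ι n) →
      Conv (fun n => out ((step d h k (A n))^[ι n] (sol d h k (A n) (a n)))) y := by
  have huniq : ∀ q s s', Sol d h k X q s → Sol d h k X q s' → s = s' := by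
    intro q s s' h1 h2
    exact Conv.unique (h1 _ _ (conv_pre X) (conv_pre q)) (h2 _ _ (conv_pre X) (conv_pre q))
  intro ρ
  induction ρ with
  | zero =>
    intro q hq s hs hρ
    obtain ⟨s', hs', hcase⟩ := hsol q hq
    obtain rfl := huniq q s s' hs hs'
    rcases hcase with ⟨q₁, hq₁, s₁, hs₁, rfl⟩ | ⟨y, hy, rfl⟩
    · exfalso
      have : rk (cons 0 (cons (rk s₁) q₁)) = rk s₁ + 1 := rfl
      omega
    · refine ⟨y, hy, fun A a hA ha ι hι => ?_⟩
      have h1 := hs A a hA ha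
      have h2 : Conv (fun n => (sol d h k (A n) (a n)).tail.tail) y := Conv.tail (Conv.tail h1)
      refine Conv.congr h2 (fun n => ?_)
      by_cases h3 : sol d h k (A n) (a n) = []
      · have h4 : sol d h k (A n) [] = [] := by
          have h5 := sol_mono hd hh hk (List.prefix_refl (A n)) (List.nil_prefix (l := a n))
          rw [h3] at h5
          exact List.prefix_nil.1 h5
        rw [h3, step_nil h4]
        rfl
      · have h4 : (sol d h k (A n) (a n)).headI = 1 := pre_head (h1.1 n) h3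
        rw [step_of_ne (by rw [h4]; exact one_ne_zero)]
        unfold out
        rw [if_neg (by rw [h4]; exact one_ne_zero)]
  | succ ρ ih =>
    intro q hq s hs hρ
    obtain ⟨s', hs', hcase⟩ := hsol q hq
    obtain rfl := huniq q s s' hs hs'
    rcases hcase with ⟨q₁, hq₁, s₁, hs₁, rfl⟩ | ⟨y, hy, rfl⟩
    · have h0 : rk (cons 0 (cons (rk s₁) q₁)) = rk s₁ + 1 := rfl
      obtain ⟨y, hy, hyc⟩ := ih q₁ hq₁ s₁ hs₁ (by omega)
      refine ⟨y, hy, fun A a hA ha ι hι => ?_⟩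
      have h1 := hs A a hA ha
      have h2 : Conv (fun n => (sol d h k (A n) (a n)).tail.tail) q₁ := Conv.tail (Conv.tail h1)
      have h3 : ∀ n, (sol d h k (A n) (a n)).headI = 0 := by
        intro n
        by_cases h3 : sol d h k (A n) (a n) = []
        · rw [h3]
          rfl
        · exact pre_head (h1.1 n) h3
      have h4 := hyc A _ hA h2 (fun n => ι n - 1) (fun m => by
        obtain ⟨N, hN⟩ := hι (m + 1)
        refine ⟨N, fun n hn => ?_⟩
        have := hN n hn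
        show m ≤ ι n - 1
        omega)
      have h5 : ∀ n, 1 ≤ ι n → out ((step d h k (A n))^[ι n] (sol d h k (A n) (a n))) =
          out ((step d h k (A n))^[ι n - 1] (sol d h k (A n) (sol d h k (A n) (a n)).tail.tail)) := by
        intro n hn
        obtain ⟨j, hj⟩ : ∃ j, ι n = j + 1 := ⟨ι n - 1, by omega⟩
        rw [hj, Function.iterate_succ_apply]
        have h6 : step d h k (A n) (sol d h k (A n) (a n)) =
            sol d h k (A n) (sol d h k (A n) (a n)).tail.tail := by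
          conv_lhs => unfold step
          rw [if_pos (h3 n)]
        rw [h6]
        rfl
      refine eventually_conv h4 (fun n => ?_) ?_
      · rcases Nat.eq_zero_or_pos (ι n) with h6 | h6
        · right
          show out ((step d h k (A n))^[ι n] (sol d h k (A n) (a n))) = []
          rw [h6]
          show out (sol d h k (A n) (a n)) = []
          unfold out
          rw [if_pos (h3 n)]
        · left
          exact h5 n h6
      · obtain ⟨N, hN⟩ := hι 1
        exact ⟨N, fun n hn => h5 n (hN n hn)⟩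
    · exfalso
      have : rk (cons 1 (cons (b + 1) y)) = 0 := rfl
      omega

theorem pre_join_congr {X r : ℕ → ℕ} {t : ℕ} (h : ∀ i < t, X i = 0) :
    pre (join X r) t = pre (join (fun _ => 0) r) t := by
  apply pre_congr
  intro i hi
  unfold join
  split_ifs
  · exact h _ (by omega)
  · rfl

theorem main1 {m : Problem} (hm : WRed m f)
    (hr : Red h k (meet (T (U f)) (T (U g))) (T m)) {r s₀ : ℕ → ℕ}
    (hs₀ : Eval k (join (fun _ => 0) r) s₀)
    (h1 : s₀ 0 = 1) : WRed g f := by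
  obtain ⟨c, d, ⟨hcc, hc⟩, ⟨hdc, hd⟩, hm⟩ := hm
  obtain ⟨⟨hhc, hh⟩, ⟨hkc, hk⟩, hr⟩ := hr
  obtain ⟨t, ht⟩ := hs₀ 2
  set b := s₀ 1 with hb
  refine ⟨fun l => c (h (bld (nxt c d h k t b) l)), mz (bwd (nxt c d h k t b) d h k),
    ⟨hcc.comp (hhc.comp (bld_computable (nxt_computable hcc hdc hhc hkc t b))),
      fun _ _ hl => hc _ _ (hh _ _ (bld_mono _ _ _ hl))⟩,
    ⟨mz_computable (bwd_computable (nxt_computable hcc hdc hhc hkc t b) hdc hhc hkc),
      mz_mono _⟩, fun v hv => ?_⟩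
  set X := seqI (nxt c d h k t b) v with hX
  have hXdom : X ∈ dom (meet (T (U f)) (T (U g))) := by
    obtain ⟨y, hy⟩ := dom_T (U f) (fstP X)
    exact ⟨cons 0 y, ⟨y, hy⟩, dom_T _ _, Or.inl ⟨y, hy, rfl⟩⟩
  obtain ⟨P, hP, -, hPs⟩ := hr X hXdom
  have hzdom : sndP X ∈ dom (U g) := z_dom hv
  have hPdom : P ∈ dom m := by
    by_contra hPd
    rw [T_neg hPd] at hPs
    obtain ⟨s', hs', -, -, hs''⟩ := hPs r trivial
    have h2 := (hs'.conv hk).1 t
    have h3 : pre (join X r) t = pre (join (fun _ => 0) r) t :=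
      pre_join_congr (fun i hi => X_small v hi)
    have h2' : k (pre (join (fun _ => 0) r) t) = pre s' (k (pre (join (fun _ => 0) r) t)).length := by
      rw [← h3]
      exact h2
    rw [h2'] at ht
    have h4 := prefix_eq_pre ht
    rw [pre_length, pre_eq_iff] at h4
    have e0 := h4 0 (by omega)
    have e1 := h4 1 (by omega)
    rcases hs'' with ⟨y, hy, rfl⟩ | ⟨y, hy, rfl⟩
    · rw [h1] at e0
      exact absurd e0 one_ne_zero
    · rw [T_pos hzdom] at hy
      obtain ⟨q, hq, rfl⟩ := z_sol hy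
      have e2 : s₀ 1 = b + 1 := e1
      omega
  obtain ⟨u, hu, hud, hus⟩ := hm P hPdom
  have hxn := x_names v hc hh hP hu
  have hSol : ∀ q ∈ f u, ∃ s, Sol d h k X q s ∧ s ∈ meet (T (U f)) (T (U g)) X := by
    intro q hq
    obtain ⟨r', hr', hr'm⟩ := hus q hq
    obtain ⟨s, hs, hs'⟩ := hPs r' (by rw [T_pos hPdom]; exact hr'm)
    refine ⟨s, fun A a hA ha => ?_, hs'⟩
    exact (hA.join (((hA.comp hh hP).join ha).comp hd hr')).comp hk hs
  have hxdom : fstP X ∈ dom (U f) := by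
    obtain ⟨q, hq⟩ := hud
    obtain ⟨s, hs, -⟩ := hSol q hq
    refine ⟨cons (rk s) q, u, ⟨q, hq⟩, hxn, ?_, q, hq, x_tab v hd hh hk hs⟩
    intro q' hq'
    obtain ⟨s', hs', -⟩ := hSol q' hq'
    exact ⟨_, x_tab v hd hh hk hs'⟩
  have hxsol : ∀ y ∈ U f (fstP X), ∃ q ∈ f u, ∃ s, Sol d h k X q s ∧ y = cons (rk s) q := by
    rintro y ⟨u', -, hu', -, q, hq, ht'⟩
    obtain rfl := Cof.unique hu' hxn
    obtain ⟨s, hs, -⟩ := hSol q hq
    exact ⟨q, hq, s, hs, Cof.unique ht' (x_tab v hd hh hk hs)⟩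
  have hall : ∀ q ∈ f u, ∃ s, Sol d h k X q s ∧
      ((∃ q₁ ∈ f u, ∃ s₁, Sol d h k X q₁ s₁ ∧ s = cons 0 (cons (rk s₁) q₁)) ∨
        ∃ y ∈ g v, s = cons 1 (cons (b + 1) y)) := by
    intro q hq
    obtain ⟨s, hs, -, -, hs'⟩ := hSol q hq
    refine ⟨s, hs, ?_⟩
    rcases hs' with ⟨y, hy, rfl⟩ | ⟨y, hy, rfl⟩
    · left
      rw [T_pos hxdom] at hy
      obtain ⟨q₁, hq₁, s₁, hs₁, rfl⟩ := hxsol y hy
      exact ⟨q₁, hq₁, s₁, hs₁, rfl⟩
    · right
      rw [T_pos hzdom] at hy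
      obtain ⟨y', hy', rfl⟩ := z_sol hy
      exact ⟨y', hy', rfl⟩
  refine ⟨u, (((bld_conv _ v).comp hh hP).comp hc hu).eval, hud, fun q hq => ?_⟩
  obtain ⟨s, hs, -⟩ := hall q hq
  obtain ⟨y, hy, hyc⟩ := chain hd hh hk hall (rk s) q hq s hs rfl
  refine ⟨y, mz_eval (conv_cof ?_), hy⟩
  have hA : Conv (fun n => bld (nxt c d h k t b) (evens (pre (join v q) n))) X := by
    have h5 := (conv_pre (join v q)).evens
    have h6 : Eval (bld (nxt c d h k t b)) v X := (bld_conv _ v).eval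
    exact h5.comp (bld_mono _) h6
  have h7 := hyc _ _ hA (conv_pre (join v q)).odds (fun n => n) (fun m => ⟨m, fun n hn => hn⟩)
  refine Conv.congr h7 (fun n => ?_)
  unfold bwd
  rw [pre_length]

end

theorem main2 {f g m : Problem} (hf : WRed m f) (hg : WRed m g) (h1 : ¬ WRed f g)
    (h2 : ¬ WRed g f) : ¬ WRed (meet (T (U f)) (T (U g))) (T m) := by
  rintro ⟨h, k, hh, hk, hr⟩
  have hred : Red h k (meet (T (U f)) (T (U g))) (T m) := ⟨hh, hk, hr⟩
  have hdom : (fun _ => 0) ∈ dom (meet (T (U f)) (T (U g))) := by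
    obtain ⟨y, hy⟩ := dom_T (U f) (fstP fun _ => 0)
    exact ⟨cons 0 y, ⟨y, hy⟩, dom_T _ _, Or.inl ⟨y, hy, rfl⟩⟩
  obtain ⟨P, -, ⟨r, hrm⟩, hs⟩ := hr _ hdom
  obtain ⟨s, hs, -, -, hsm⟩ := hs r hrm
  rcases hsm with ⟨y, hy, rfl⟩ | ⟨y, hy, rfl⟩
  · apply h1
    have hjoin : join (fun _ => 0) (fun _ => 0) = fun _ => 0 := by
      funext n
      unfold join
      simp
    refine main1 hg (Red.swap hred) (r := r)
      (s₀ := cons (1 - (cons 0 y) 0) (fun n => (cons 0 y) (n + 1))) ?_ rfl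
    refine (Conv.flp (Conv.comp (a := fun n => joinL (swp (evens (pre (join (fun _ => 0) r) n)))
      (odds (pre (join (fun _ => 0) r) n))) ?_ hk.2 hs)).eval
    apply Conv.join
    · have h3 := (conv_pre (join (fun _ : ℕ => 0) r)).evens
      have h4 := h3
      rw [← hjoin] at h4
      have h5 := Conv.swp h4
      rw [hjoin] at h5
      exact h5
    · exact (conv_pre (join (fun _ : ℕ => 0) r)).odds
  · apply h2
    exact main1 hf hred hs rfl

end Q204.TJ
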