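import Pool.Agent.Q204.TJ.Univ

set_option autoImplicit false

/-!
# The meet is the infimum
-/

namespace Q204.TJ

open Q204.WD Encodable

theorem meet_le_left (f g : Problem) : WRed (meet f g) f := by
  refine ⟨evens, fun l => 0 :: odds l, ⟨primrec_evens.to_comp, mono_evens⟩,
    ⟨(Primrec.list_cons.comp (Primrec.const 0) primrec_odds).to_comp,
      fun l l' h => mono_cons 0 _ _ (mono_odds _ _ h)⟩, ?_⟩
  rintro p ⟨r, h1, h2, -⟩
  refine ⟨fstP p, ?_, h1, fun q hq => ⟨cons 0 q, ?_, h1, h2, Or.inl ⟨q, hq, rfl⟩⟩⟩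
  · have h3 := conv_pre p
    rw [← join_fst_snd p] at h3
    have h4 := h3.evens
    rw [join_fst_snd] at h4
    exact h4.eval
  · exact (Conv.cons (conv_pre (join p q)).odds 0).eval

theorem meet_le_right (f g : Problem) : WRed (meet f g) g := by
  refine ⟨odds, fun l => 1 :: odds l, ⟨primrec_odds.to_comp, mono_odds⟩,
    ⟨(Primrec.list_cons.comp (Primrec.const 1) primrec_odds).to_comp,
      fun l l' h => mono_cons 1 _ _ (mono_odds _ _ h)⟩, ?_⟩
  rintro p ⟨r, h1, h2, -⟩
  refine ⟨sndP p, ?_, h2, fun q hq => ⟨cons 1 q, ?_, h1, h2, Or.inr ⟨q, hq, rfl⟩⟩⟩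
  · have h3 := conv_pre p
    rw [← join_fst_snd p] at h3
    have h4 := h3.odds
    rw [join_fst_snd] at h4
    exact h4.eval
  · exact (Conv.cons (conv_pre (join p q)).odds 1).eval

/-- Case distinction on the first element of the second component. -/
def cse (ψ₁ ψ₂ : List ℕ → List ℕ) (l : List ℕ) : List ℕ :=
  if odds l = [] then [] else
    if (odds l).headI = 0 then ψ₁ (joinL (evens l) (odds l).tail)
    else ψ₂ (joinL (evens l) (odds l).tail)

theorem tail_prefix {l l' : List ℕ} (h : l <+: l') : l.tail <+: l'.tail := by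
  rcases l with _ | ⟨a, l⟩
  · exact List.nil_prefix
  · rcases l' with _ | ⟨b, l'⟩
    · simp at h
    · rw [List.cons_prefix_cons] at h
      exact h.2

theorem headI_prefix {l l' : List ℕ} (h : l <+: l') (h0 : l ≠ []) : l.headI = l'.headI := by
  rcases l with _ | ⟨a, l⟩
  · exact absurd rfl h0
  · rcases l' with _ | ⟨b, l'⟩
    · simp at h
    · rw [List.cons_prefix_cons] at h
      exact h.1

theorem cse_mono {ψ₁ ψ₂ : List ℕ → List ℕ} (h₁ : Mono ψ₁) (h₂ : Mono ψ₂) : Mono (cse ψ₁ ψ₂) := by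
  intro l l' h
  unfold cse
  by_cases h0 : odds l = []
  · rw [if_pos h0]
    exact List.nil_prefix
  · have ho := mono_odds _ _ h
    have he := mono_evens _ _ h
    have h0' : odds l' ≠ [] := by
      intro h1
      rw [h1] at ho
      exact h0 (List.prefix_nil.1 ho)
    rw [if_neg h0, if_neg h0', headI_prefix ho h0]
    split_ifs
    · exact h₁ _ _ (joinL_prefix he (tail_prefix ho))
    · exact h₂ _ _ (joinL_prefix he (tail_prefix ho))

theorem cse_computable {ψ₁ ψ₂ : List ℕ → List ℕ} (h₁ : Computable ψ₁) (h₂ : Computable ψ₂) :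
    Computable (cse ψ₁ ψ₂) := by
  have ht : Computable (fun l => (odds l).tail) := (Primrec.list_tail.comp primrec_odds).to_comp
  have hj : Computable (fun l => joinL (evens l) (odds l).tail) :=
    computable_joinL primrec_evens.to_comp ht
  have hc1 : Computable (fun l => decide (odds l = [])) :=
    (Primrec.eq.decide.comp primrec_odds (Primrec.const [])).to_comp
  have hc2 : Computable (fun l => decide ((odds l).headI = 0)) :=
    (Primrec.eq.decide.comp (Primrec.list_headI.comp primrec_odds) (Primrec.const 0)).to_comp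
  refine Computable.of_eq (f := fun l => cond (decide (odds l = [])) []
    (cond (decide ((odds l).headI = 0)) (ψ₁ (joinL (evens l) (odds l).tail))
      (ψ₂ (joinL (evens l) (odds l).tail))))
    (Computable.cond hc1 (Computable.const []) (Computable.cond hc2 (h₁.comp hj) (h₂.comp hj))) ?_
  intro l
  unfold cse
  by_cases h : odds l = []
  · simp [h]
  · by_cases h' : (odds l).headI = 0
    · simp [h, h']
    · simp [h, h']

theorem Conv.eventually {a b : ℕ → List ℕ} {y : ℕ → ℕ} (h : Conv a y)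
    (hab : ∀ n, b n = a n ∨ b n = []) (hN : ∃ N, ∀ n, N ≤ n → b n = a n) : Conv b y := by
  constructor
  · intro n
    rcases hab n with h1 | h1
    · rw [h1]
      exact h.1 n
    · rw [h1]
      rfl
  · intro m
    obtain ⟨N, hN⟩ := hN
    obtain ⟨M, hM⟩ := h.2 m
    refine ⟨max N M, fun n hn => ?_⟩
    rw [hN n (le_trans (le_max_left _ _) hn)]
    exact hM n (le_trans (le_max_right _ _) hn)

theorem Conv.ne_nil {a : ℕ → List ℕ} {y : ℕ → ℕ} (h : Conv a y) :
    ∃ N, ∀ n, N ≤ n → a n ≠ [] := by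
  obtain ⟨N, hN⟩ := h.2 1
  refine ⟨N, fun n hn h0 => ?_⟩
  have := hN n hn
  rw [h0] at this
  simp at this

theorem le_meet {e f g : Problem} (h1 : WRed e f) (h2 : WRed e g) : WRed e (meet f g) := by
  obtain ⟨φ₁, ψ₁, ⟨hφc₁, hφ₁⟩, ⟨hψc₁, hψ₁⟩, hr₁⟩ := h1
  obtain ⟨φ₂, ψ₂, ⟨hφc₂, hφ₂⟩, ⟨hψc₂, hψ₂⟩, hr₂⟩ := h2
  refine ⟨fun l => joinL (φ₁ l) (φ₂ l), cse ψ₁ ψ₂, ⟨computable_joinL hφc₁ hφc₂,
    fun l l' h => joinL_prefix (hφ₁ _ _ h) (hφ₂ _ _ h)⟩,
    ⟨cse_computable hψc₁ hψc₂, cse_mono hψ₁ hψ₂⟩, fun p hp => ?_⟩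
  obtain ⟨u₁, hu₁, hd₁, hs₁⟩ := hr₁ p hp
  obtain ⟨u₂, hu₂, hd₂, hs₂⟩ := hr₂ p hp
  refine ⟨join u₁ u₂, ((hu₁.conv hφ₁).join (hu₂.conv hφ₂)).eval, ?_, ?_⟩
  · obtain ⟨y, hy⟩ := hd₁
    exact ⟨cons 0 y, by rw [fst_join]; exact ⟨y, hy⟩, by rw [snd_join]; exact hd₂,
      Or.inl ⟨y, by rw [fst_join]; exact hy, rfl⟩⟩
  · rintro r ⟨-, -, hr⟩
    rw [fst_join, snd_join] at hr
    have c0 := (conv_pre (join p r)).evens
    have c1 := (conv_pre (join p r)).odds
    rcases hr with ⟨y, hy, rfl⟩ | ⟨y, hy, rfl⟩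
    · obtain ⟨s, hs, hse⟩ := hs₁ y hy
      refine ⟨s, ?_, hse⟩
      have c2 : Conv (fun n => (odds (pre (join p (cons 0 y)) n)).tail) y := Conv.tail c1
      have c3 := (c0.join c2).comp hψ₁ hs
      refine (Conv.eventually c3 (b := fun n => cse ψ₁ ψ₂ (pre (join p (cons 0 y)) n)) ?_ ?_).eval
      · intro n
        show cse ψ₁ ψ₂ (pre (join p (cons 0 y)) n) = _ ∨ cse ψ₁ ψ₂ (pre (join p (cons 0 y)) n) = _
        unfold cse
        by_cases h0 : odds (pre (join p (cons 0 y)) n) = []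
        · right
          rw [if_pos h0]
        · left
          have h3 : (odds (pre (join p (cons 0 y)) n)).headI = 0 := pre_head (c1.1 n) h0
          rw [if_neg h0, if_pos h3]
      · obtain ⟨N, hN⟩ := Conv.ne_nil c1
        refine ⟨N, fun n hn => ?_⟩
        have h0 : odds (pre (join p (cons 0 y)) n) ≠ [] := hN n hn
        have h3 : (odds (pre (join p (cons 0 y)) n)).headI = 0 := pre_head (c1.1 n) h0
        show cse ψ₁ ψ₂ (pre (join p (cons 0 y)) n) = _
        unfold cse
        rw [if_neg h0, if_pos h3]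
    · obtain ⟨s, hs, hse⟩ := hs₂ y hy
      refine ⟨s, ?_, hse⟩
      have c2 : Conv (fun n => (odds (pre (join p (cons 1 y)) n)).tail) y := Conv.tail c1
      have c3 := (c0.join c2).comp hψ₂ hs
      refine (Conv.eventually c3 (b := fun n => cse ψ₁ ψ₂ (pre (join p (cons 1 y)) n)) ?_ ?_).eval
      · intro n
        show cse ψ₁ ψ₂ (pre (join p (cons 1 y)) n) = _ ∨ cse ψ₁ ψ₂ (pre (join p (cons 1 y)) n) = _
        unfold cse
        by_cases h0 : odds (pre (join p (cons 1 y)) n) = []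
        · right
          rw [if_pos h0]
        · left
          have h3 : (odds (pre (join p (cons 1 y)) n)).headI = 1 := pre_head (c1.1 n) h0
          rw [if_neg h0, if_neg (by rw [h3]; exact one_ne_zero)]
      · obtain ⟨N, hN⟩ := Conv.ne_nil c1
        refine ⟨N, fun n hn => ?_⟩
        have h0 : odds (pre (join p (cons 1 y)) n) ≠ [] := hN n hn
        have h3 : (odds (pre (join p (cons 1 y)) n)).headI = 1 := pre_head (c1.1 n) h0
        show cse ψ₁ ψ₂ (pre (join p (cons 1 y)) n) = _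
        unfold cse
        rw [if_neg h0, if_neg (by rw [h3]; exact one_ne_zero)]

/-- A reduction given by concrete functionals. -/
def Red (h k : List ℕ → List ℕ) (A B : Problem) : Prop :=
  (Computable h ∧ Mono h) ∧ (Computable k ∧ Mono k) ∧
    ∀ p ∈ dom A, ∃ u, Eval h p u ∧ u ∈ dom B ∧ ∀ q ∈ B u, ∃ s, Eval k (join p q) s ∧ s ∈ A p

/-- Exchange of the components. -/
def swp (l : List ℕ) : List ℕ := joinL (odds l) (evens l)

/-- Exchange of `0` and `1` as the first element. -/
def flp (l : List ℕ) : List ℕ := if l = [] then [] else (1 - l.headI) :: l.tail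

theorem swp_mono : Mono swp := fun _ _ h => joinL_prefix (mono_odds _ _ h) (mono_evens _ _ h)

theorem flp_mono : Mono flp := by
  intro l l' h
  unfold flp
  by_cases h0 : l = []
  · rw [if_pos h0]
    exact List.nil_prefix
  · have h0' : l' ≠ [] := by
      intro h1
      rw [h1] at h
      exact h0 (List.prefix_nil.1 h)
    rw [if_neg h0, if_neg h0', headI_prefix h h0]
    exact (List.prefix_cons_inj _).2 (tail_prefix h)

theorem flp_computable : Computable flp := by
  apply Primrec.to_comp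
  unfold flp
  apply Primrec.ite
  · exact Primrec.eq.comp Primrec.id (Primrec.const [])
  · exact Primrec.const []
  · exact Primrec.list_cons.comp (Primrec.nat_sub.comp (Primrec.const 1)
      (Primrec.list_headI.comp Primrec.id)) Primrec.list_tail

theorem swp_computable : Computable swp :=
  computable_joinL primrec_odds.to_comp primrec_evens.to_comp

theorem Conv.swp {a : ℕ → List ℕ} {x z : ℕ → ℕ} (h : Conv a (join x z)) :
    Conv (fun n => Q204.TJ.swp (a n)) (join z x) := h.odds.join h.evens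

theorem Conv.flp {a : ℕ → List ℕ} {s : ℕ → ℕ} (h : Conv a s) :
    Conv (fun n => Q204.TJ.flp (a n)) (Q204.TJ.cons (1 - s 0) (fun n => s (n + 1))) := by
  have h1 := Conv.cons (Conv.tail h) (1 - s 0)
  have h2 : ∀ n, a n ≠ [] → Q204.TJ.flp (a n) = (1 - s 0) :: (a n).tail := by
    intro n hn
    unfold Q204.TJ.flp
    rw [if_neg hn, pre_head (h.1 n) hn]
  refine Conv.eventually h1 (fun n => ?_) ?_
  · by_cases hn : a n = []
    · right
      show Q204.TJ.flp (a n) = []
      unfold Q204.TJ.flp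
      rw [if_pos hn]
    · left
      exact h2 n hn
  · obtain ⟨N, hN⟩ := Conv.ne_nil h
    exact ⟨N, fun n hn => h2 n (hN n hn)⟩

theorem Red.swap {h k : List ℕ → List ℕ} {A B C : Problem} (hr : Red h k (meet A B) C) :
    Red (fun l => h (swp l)) (fun l => flp (k (joinL (swp (evens l)) (odds l)))) (meet B A) C := by
  obtain ⟨⟨hhc, hh⟩, ⟨hkc, hk⟩, hr⟩ := hr
  refine ⟨⟨hhc.comp swp_computable, fun _ _ hl => hh _ _ (swp_mono _ _ hl)⟩,
    ⟨flp_computable.comp (hkc.comp (computable_joinL (swp_computable.comp primrec_evens.to_comp)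
      primrec_odds.to_comp)), fun _ _ hl => flp_mono _ _ (hk _ _ (joinL_prefix
        (swp_mono _ _ (mono_evens _ _ hl)) (mono_odds _ _ hl)))⟩, ?_⟩
  intro p hp
  obtain ⟨r0, hB, hA, -⟩ := hp
  have hdom : join (sndP p) (fstP p) ∈ dom (meet A B) := by
    obtain ⟨y, hy⟩ := hA
    exact ⟨cons 0 y, by rw [fst_join]; exact ⟨y, hy⟩, by rw [snd_join]; exact hB,
      Or.inl ⟨y, by rw [fst_join]; exact hy, rfl⟩⟩
  obtain ⟨u, hu, hud, hs⟩ := hr _ hdom
  have c0 : Conv (fun n => swp (pre p n)) (join (sndP p) (fstP p)) := by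
    have h3 := conv_pre p
    rw [← join_fst_snd p] at h3
    have h4 := Conv.swp h3
    rw [join_fst_snd p] at h4
    exact h4
  refine ⟨u, (c0.comp hh hu).eval, hud, fun q hq => ?_⟩
  obtain ⟨s, hs, -, -, hsm⟩ := hs q hq
  refine ⟨_, (Conv.flp (Conv.comp (a := fun n => joinL (swp (evens (pre (join p q) n)))
    (odds (pre (join p q) n))) ?_ hk hs)).eval, ?_⟩
  · apply Conv.join
    · have c1 := (conv_pre (join p q)).evens
      have c2 := c1
      rw [← join_fst_snd p] at c2
      have c3 := Conv.swp c2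
      rw [join_fst_snd p] at c3
      exact c3
    · exact (conv_pre (join p q)).odds
  · rw [fst_join, snd_join] at hsm
    refine ⟨hB, hA, ?_⟩
    rcases hsm with ⟨y, hy, rfl⟩ | ⟨y, hy, rfl⟩
    · right
      exact ⟨y, hy, rfl⟩
    · left
      exact ⟨y, hy, rfl⟩

end Q204.TJ
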