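import Pool.Agent.Q204.TJ.Tools

set_option autoImplicit false

/-!
# The universal representative: the totalizing jump exists
-/

namespace Q204.TJ

open Q204.WD Encodable

/-- Decoding of lists. -/
def dl (n : ℕ) : List ℕ := (decode (α := List ℕ) n).getD []

@[simp] theorem dl_encode (l : List ℕ) : dl (encode l) = l := by
  unfold dl
  rw [encodek]
  rfl

@[simp] theorem dl_zero : dl 0 = [] := by
  have : (0 : ℕ) = encode ([] : List ℕ) := rfl
  rw [this, dl_encode]

theorem primrec_dl : Primrec dl :=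
  Primrec.option_getD.comp Primrec.decode (Primrec.const [])

/-- The value of the table entry `e` at the finite sequence `w`. -/
def appL (e : ℕ) (w : List ℕ) : List ℕ :=
  if w.take (dl e.unpair.1).length = dl e.unpair.1 then dl e.unpair.2 else []

/-- The value of the table entry `e` at the infinite sequence `q`. -/
def appI (e : ℕ) (q : ℕ → ℕ) : List ℕ :=
  if pre q (dl e.unpair.1).length = dl e.unpair.1 then dl e.unpair.2 else []

theorem appL_of_le {e : ℕ} {q : ℕ → ℕ} {n : ℕ} (h : (dl e.unpair.1).length ≤ n) :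
    appL e (pre q n) = appI e q := by
  unfold appL appI
  rw [pre_take q h]

theorem appL_cases (e : ℕ) (q : ℕ → ℕ) (n : ℕ) :
    appL e (pre q n) = appI e q ∨ appL e (pre q n) = [] := by
  rcases le_or_gt (dl e.unpair.1).length n with h | h
  · exact Or.inl (appL_of_le h)
  · right
    unfold appL
    rw [if_neg]
    intro h1
    have h2 := congrArg List.length h1
    rw [List.length_take, pre_length] at h2
    omega

theorem primrec_appL : Primrec₂ appL := by
  unfold appL
  apply Primrec.ite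
  · apply Primrec.eq.comp
    · exact Primrec.list_take.comp (Primrec.list_length.comp (primrec_dl.comp
        (Primrec.fst.comp (Primrec.unpair.comp Primrec.fst)))) Primrec.snd
    · exact primrec_dl.comp (Primrec.fst.comp (Primrec.unpair.comp Primrec.fst))
  · exact primrec_dl.comp (Primrec.snd.comp (Primrec.unpair.comp Primrec.fst))
  · exact Primrec.const []

/-- The table `β` maps `q` to `r`. -/
def Tab (β : ℕ → ℕ) (q r : ℕ → ℕ) : Prop := Cof (fun n => appI (β n) q) r

/-- The universal representative of the degree of `g`. -/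
def U (g : Problem) : Problem :=
  fun p => {r | ∃ u ∈ dom g, Cof (fun n => dl (fstP p n)) u ∧
    (∀ q ∈ g u, ∃ r', Tab (sndP p) q r') ∧ ∃ q ∈ g u, Tab (sndP p) q r}

theorem nil_pre (u : ℕ → ℕ) : ([] : List ℕ) = pre u ([] : List ℕ).length := rfl

theorem sched (n k : ℕ) : ∃ L, L.unpair.1 = n ∧ k ≤ L :=
  ⟨Nat.pair n k, by simp, Nat.right_le_pair n k⟩

/-- Reading a name. -/
def rd (l : List ℕ) : List ℕ := dl (l.getD (2 * l.length.unpair.1) 0)

theorem rd_cof {p u : ℕ → ℕ} (h : Cof (fun n => dl (fstP p n)) u) :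
    Cof (fun n => rd (pre p n)) u := by
  have key : ∀ n, rd (pre p n) = dl (fstP p n.unpair.1) ∨ rd (pre p n) = [] := by
    intro n
    unfold rd
    rw [pre_length]
    rcases lt_or_ge (2 * n.unpair.1) n with h1 | h1
    · left
      rw [pre_getD p n _ h1]
      rfl
    · right
      rw [List.getD_eq_default _ _ (by simpa using h1), dl_zero]
  constructor
  · intro n
    show rd (pre p n) = pre u (rd (pre p n)).length
    rcases key n with h1 | h1
    · rw [h1]
      exact h.1 _
    · rw [h1]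
      rfl
  · intro m
    obtain ⟨n, hn⟩ := h.2 m
    obtain ⟨L, hL, hL'⟩ := sched n (2 * n + 1)
    refine ⟨L, ?_⟩
    show m ≤ (rd (pre p L)).length
    unfold rd
    rw [pre_length, hL, pre_getD p L _ (by omega)]
    exact hn

/-- Evaluating a table. -/
def ev (l : List ℕ) : List ℕ :=
  appL ((evens l).getD (2 * l.length.unpair.1 + 1) 0) (odds l)

theorem appL_zero (w : List ℕ) : appL 0 w = [] := by
  unfold appL
  simp

theorem ev_cof {p q r : ℕ → ℕ} (h : Tab (sndP p) q r) :
    Cof (fun n => ev (pre (join p q) n)) r := by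
  have key : ∀ n, ev (pre (join p q) n) = appI (sndP p n.unpair.1) q ∨
      ev (pre (join p q) n) = [] := by
    intro n
    unfold ev
    rw [pre_length, evens_pre_join, odds_pre_join]
    rcases lt_or_ge (2 * n.unpair.1 + 1) ((n + 1) / 2) with h1 | h1
    · rw [pre_getD p _ _ h1]
      exact appL_cases _ _ _
    · right
      rw [List.getD_eq_default _ _ (by simpa using h1)]
      exact appL_zero _
  constructor
  · intro n
    show ev (pre (join p q) n) = pre r (ev (pre (join p q) n)).length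
    rcases key n with h1 | h1
    · rw [h1]
      exact h.1 _
    · rw [h1]
      rfl
  · intro m
    obtain ⟨n, hn⟩ := h.2 m
    obtain ⟨L, hL, hL'⟩ := sched n (2 * (2 * n + 2) + 2 * (dl (sndP p n).unpair.1).length)
    refine ⟨L, ?_⟩
    show m ≤ (ev (pre (join p q) L)).length
    unfold ev
    rw [pre_length, hL, evens_pre_join, odds_pre_join, pre_getD p _ _ (by omega)]
    have h2 : appL (p (2 * n + 1)) (pre q (L / 2)) = appI (sndP p n) q := by
      apply appL_of_le
      show (dl (sndP p n).unpair.1).length ≤ _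
      omega
    rw [h2]
    exact hn

theorem primrec_rd : Primrec rd :=
  primrec_dl.comp ((Primrec.list_getD 0).comp Primrec.id (Primrec.nat_mul.comp (Primrec.const 2)
    (Primrec.fst.comp (Primrec.unpair.comp Primrec.list_length))))

theorem primrec_ev : Primrec ev :=
  primrec_appL.comp ((Primrec.list_getD 0).comp primrec_evens
    (Primrec.succ.comp (Primrec.nat_mul.comp (Primrec.const 2)
    (Primrec.fst.comp (Primrec.unpair.comp Primrec.list_length))))) primrec_odds

theorem U_le (g : Problem) : WRed (U g) g := by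
  refine ⟨mz rd, mz ev, ⟨mz_computable primrec_rd.to_comp, mz_mono _⟩,
    ⟨mz_computable primrec_ev.to_comp, mz_mono _⟩, ?_⟩
  rintro p ⟨r, u, hu, hc, ht, -⟩
  refine ⟨u, mz_eval (rd_cof hc), hu, fun q hq => ?_⟩
  obtain ⟨r', hr'⟩ := ht q hq
  exact ⟨r', mz_eval (ev_cof hr'), u, hu, hc, ht, q, hq, hr'⟩

/-- The next element of the instance of `U g` determined by a reduction. -/
def red (φ ψ : List ℕ → List ℕ) (vp _R : List ℕ) : ℕ :=
  if vp.length % 2 = 0 then encode (φ vp)
  else Nat.pair (vp.length / 2).unpair.1 (encode (ψ (joinL vp (dl (vp.length / 2).unpair.1))))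

theorem red_computable {φ ψ : List ℕ → List ℕ} (hφ : Computable φ) (hψ : Computable ψ) :
    Computable₂ (red φ ψ) := by
  have h1 : Computable (fun x : List ℕ × List ℕ => encode (φ x.1)) :=
    Computable.encode.comp (hφ.comp Computable.fst)
  have h0 : Computable (fun x : List ℕ × List ℕ => (x.1.length / 2).unpair.1) :=
    (Primrec.fst.comp (Primrec.unpair.comp (Primrec.nat_div.comp
      (Primrec.list_length.comp Primrec.fst) (Primrec.const 2)))).to_comp
  have h2 : Computable (fun x : List ℕ × List ℕ => Nat.pair (x.1.length / 2).unpair.1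
      (encode (ψ (joinL x.1 (dl (x.1.length / 2).unpair.1))))) :=
    Primrec₂.natPair.to_comp.comp h0 (Computable.encode.comp (hψ.comp
      (computable_joinL Computable.fst (primrec_dl.to_comp.comp h0))))
  have h3 : Computable (fun x : List ℕ × List ℕ => decide (x.1.length % 2 = 0)) :=
    (Primrec.eq.decide.comp (Primrec.nat_mod.comp (Primrec.list_length.comp Primrec.fst)
      (Primrec.const 2)) (Primrec.const 0)).to_comp
  refine Computable.of_eq (f := fun x : List ℕ × List ℕ =>
    cond (decide (x.1.length % 2 = 0)) (encode (φ x.1)) (Nat.pair (x.1.length / 2).unpair.1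
      (encode (ψ (joinL x.1 (dl (x.1.length / 2).unpair.1)))))) (Computable.cond h3 h1 h2) ?_
  rintro ⟨a, b⟩
  show _ = red φ ψ a b
  unfold red
  by_cases h : a.length % 2 = 0
  · simp [h]
  · simp [h]

theorem red_fst (φ ψ : List ℕ → List ℕ) (p : ℕ → ℕ) (n : ℕ) :
    fstP (seqI (red φ ψ) p) n = encode (φ (pre p (2 * n))) := by
  unfold fstP
  rw [seqI_eq]
  unfold red
  rw [pre_length, if_pos (by omega)]

theorem red_snd (φ ψ : List ℕ → List ℕ) (p : ℕ → ℕ) (n : ℕ) :
    sndP (seqI (red φ ψ) p) n =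
      Nat.pair n.unpair.1 (encode (ψ (joinL (pre p (2 * n + 1)) (dl n.unpair.1)))) := by
  unfold sndP
  rw [seqI_eq]
  unfold red
  rw [pre_length, if_neg (by omega)]
  have : (2 * n + 1) / 2 = n := by omega
  rw [this]

theorem red_names {φ ψ : List ℕ → List ℕ} {p u : ℕ → ℕ} (hφ : Mono φ) (hu : Eval φ p u) :
    Cof (fun n => dl (fstP (seqI (red φ ψ) p) n)) u := by
  have h := hu.conv hφ
  constructor
  · intro n
    show dl (fstP (seqI (red φ ψ) p) n) = pre u (dl (fstP (seqI (red φ ψ) p) n)).length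
    rw [red_fst, dl_encode]
    exact h.1 (2 * n)
  · intro m
    obtain ⟨N, hN⟩ := h.2 m
    refine ⟨N, ?_⟩
    show m ≤ (dl (fstP (seqI (red φ ψ) p) N)).length
    rw [red_fst, dl_encode]
    exact hN (2 * N) (by omega)

theorem red_tab {φ ψ : List ℕ → List ℕ} {p q s : ℕ → ℕ} (hψ : Mono ψ)
    (hs : Eval ψ (join p q) s) : Tab (sndP (seqI (red φ ψ) p)) q s := by
  have h := hs.conv hψ
  constructor
  · intro n
    show appI (sndP (seqI (red φ ψ) p) n) q = pre s (appI (sndP (seqI (red φ ψ) p) n) q).length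
    rw [red_snd]
    unfold appI
    simp only [Nat.unpair_pair, dl_encode]
    split_ifs with h1
    · rw [← h1, joinL_pre]
      exact h.1 _
    · rfl
  · intro m
    obtain ⟨N, hN⟩ := h.2 m
    refine ⟨Nat.pair (encode (pre q N)) N, ?_⟩
    show m ≤ (appI (sndP (seqI (red φ ψ) p) _) q).length
    rw [red_snd]
    unfold appI
    simp only [Nat.unpair_pair, dl_encode, pre_length]
    rw [if_pos trivial, joinL_pre]
    apply hN
    have h2 : N ≤ Nat.pair (encode (pre q N)) N := Nat.right_le_pair _ _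
    have h3 : N ≤ min (2 * Nat.pair (encode (pre q N)) N + 1) N := le_min (by omega) le_rfl
    omega

theorem red_key {f g : Problem} {φ ψ : List ℕ → List ℕ} (hφ : Mono φ) (hψ : Mono ψ) {p u : ℕ → ℕ}
    (hu : Eval φ p u) (hud : u ∈ dom g)
    (hs : ∀ q ∈ g u, ∃ s, Eval ψ (join p q) s ∧ s ∈ f p) :
    seqI (red φ ψ) p ∈ dom (U g) ∧ ∀ r ∈ U g (seqI (red φ ψ) p), r ∈ f p := by
  have h1 := red_names (ψ := ψ) hφ hu
  constructor
  · obtain ⟨q, hq⟩ := hud
    obtain ⟨s, hs1, hs2⟩ := hs q hq
    refine ⟨s, u, ⟨q, hq⟩, h1, ?_, q, hq, red_tab hψ hs1⟩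
    intro q' hq'
    obtain ⟨s', hs', -⟩ := hs q' hq'
    exact ⟨s', red_tab hψ hs'⟩
  · rintro r ⟨u', hu', hc, -, q, hq, ht⟩
    obtain rfl := h1.unique hc
    obtain ⟨s, hs1, hs2⟩ := hs q hq
    obtain rfl := Cof.unique ht (red_tab hψ hs1)
    exact hs2

theorem dom_T (g : Problem) (p : ℕ → ℕ) : p ∈ dom (T g) := by
  unfold dom T
  show Set.Nonempty _
  by_cases h : p ∈ dom g
  · rw [if_pos h]
    exact h
  · rw [if_neg h]
    exact ⟨p, trivial⟩

theorem T_pos {g : Problem} {p : ℕ → ℕ} (h : p ∈ dom g) : T g p = g p := if_pos h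

theorem T_neg {g : Problem} {p : ℕ → ℕ} (h : p ∉ dom g) : T g p = Set.univ := if_neg h

theorem le_U {f g : Problem} (h : WRed f g) : WRed f (U g) ∧ WRed (T f) (T (U g)) := by
  obtain ⟨φ, ψ, ⟨hφc, hφ⟩, ⟨hψc, hψ⟩, hr⟩ := h
  constructor
  · refine ⟨bld (red φ ψ), odds, ⟨bld_computable (red_computable hφc hψc), bld_mono _⟩,
      ⟨primrec_odds.to_comp, mono_odds⟩, fun p hp => ?_⟩
    obtain ⟨u, hu, hud, hs⟩ := hr p hp
    obtain ⟨h1, h2⟩ := red_key hφ hψ hu hud hs
    refine ⟨_, (bld_conv _ p).eval, h1, fun q hq => ⟨q, ?_, h2 q hq⟩⟩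
    exact (conv_pre (join p q)).odds.eval
  · refine ⟨bld (red φ ψ), odds, ⟨bld_computable (red_computable hφc hψc), bld_mono _⟩,
      ⟨primrec_odds.to_comp, mono_odds⟩, fun p _ => ?_⟩
    refine ⟨_, (bld_conv _ p).eval, dom_T _ _, fun q hq => ⟨q, ?_, ?_⟩⟩
    · exact (conv_pre (join p q)).odds.eval
    · by_cases hp : p ∈ dom f
      · obtain ⟨u, hu, hud, hs⟩ := hr p hp
        obtain ⟨h1, h2⟩ := red_key hφ hψ hu hud hs
        rw [T_pos h1] at hq
        rw [T_pos hp]
        exact h2 q hq
      · rw [T_neg hp]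
        trivial

theorem U_equiv (g : Problem) : WEquiv (U g) g := ⟨U_le g, (le_U (WRed.refl g)).1⟩

theorem isTJ_U (f : Problem) : IsTJ f (T (U f)) :=
  ⟨⟨U f, U_equiv f, WRed.refl _, WRed.refl _⟩, fun _ h => (le_U h.1).2⟩

theorem IsTJ.ge {f F : Problem} (h : IsTJ f F) : WRed (T (U f)) F := h.2 _ (U_equiv f)

theorem IsTJ.le {f F : Problem} (h : IsTJ f F) : WRed F (T (U f)) := by
  obtain ⟨⟨g, hg, hF⟩, -⟩ := h
  exact hF.1.trans (le_U hg.1).2

end Q204.TJ
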